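import Pool.Agent.Work.MP_2c6138_pr.NatMain

/-!
# Noise sensitivity of geometric last-passage percolation under site-resampling
-/

namespace Pool.Agent.Results.MP_2c6138_pr.DirectedPaths

open MeasureTheory ProbabilityTheory Filter Pool.Agent.Work.MP_2c6138_pr.Nat

/-- Let `0 < p < 1` and `0 < ε < 1`. On any probability space let `w v`, `w' v` (geometric:
`P(w v = k) = p (1 - p) ^ k`) and `ξ v` (with `P(ξ v = 1) = ε`), `v ∈ ℤ²`, be independent random
variables; resample the weight `w v` to `w' v` at the sites with `ξ v = 1`. Then the Pearson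
correlation of the last-passage times from `(0, 0)` to `(n, n)` of the weights before and after
the resampling tends to `0`. -/
theorem result {p ε : ℝ} (hp : 0 < p) (hp1 : p < 1) (hε : 0 < ε) (hε1 : ε < 1)
    {Ω : Type*} [MeasurableSpace Ω] (P : Measure Ω) [IsProbabilityMeasure P]
    (w w' ξ : ℤ × ℤ → Ω → ℕ) (hw : ∀ v, Measurable (w v)) (hw' : ∀ v, Measurable (w' v))
    (hξ : ∀ v, Measurable (ξ v)) (h : iIndepFun (Sum.elim w (Sum.elim w' ξ)) P)
    (h1 : ∀ v k, P {a | w v a = k} = ENNReal.ofReal (p * (1 - p) ^ k))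
    (h2 : ∀ v k, P {a | w' v a = k} = ENNReal.ofReal (p * (1 - p) ^ k))
    (h3 : ∀ v, P {a | ξ v a = 1} = ENNReal.ofReal ε) :
    Tendsto (fun n : ℕ =>
      pearson P (fun a => (passageTime (fun v => w v a) (0, 0) ((n : ℤ), (n : ℤ)) : ℝ))
        (fun a => (passageTime (fun v => if ξ v a = 1 then w' v a else w v a) (0, 0)
          ((n : ℤ), (n : ℤ)) : ℝ))) atTop (nhds 0) :=
  main hp hp1 hε hε1 P w w' ξ hw hw' hξ h h1 h2 h3

end Pool.Agent.Results.MP_2c6138_pr.DirectedPaths
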